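import Pool.Agent.ARC.Stmts

/-!
# Row AFR of squad ARC: abstract finite range zero estimate
-/

set_option autoImplicit false

namespace Pool.Agent.ARC.H90

open scoped BigOperators Pointwise
open Pool.Agent.THS Pool.Agent.ZES

theorem finrank_span_pow_le {V : Type} {M : ℕ} (v : Fin M → V → ℂ) (n : ℕ) :
    Module.finrank ℂ ↥((Submodule.span ℂ (Set.range v)) ^ n) ≤ M ^ n := by
  classical
  have h1 : (Submodule.span ℂ (Set.range v)) ^ n
      = Submodule.span ℂ (((Finset.univ.image v) ^ n : Finset (V → ℂ)) : Set (V → ℂ)) := by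
    rw [Finset.coe_pow, Finset.coe_image, Finset.coe_univ, Set.image_univ, Submodule.span_pow]
  rw [h1]
  refine (finrank_span_finset_le_card _).trans ?_
  refine Finset.card_pow_le.trans ?_
  refine Nat.pow_le_pow_left ?_ n
  refine Finset.card_image_le.trans ?_
  simp

theorem exists_stable (a : ℕ → ℕ) (D : ℕ) (h0 : a 0 ≤ D) (hm : ∀ t, a (t + 1) ≤ a t) :
    ∃ t, t ≤ D ∧ a (t + 1) = a t := by
  by_contra hcon
  push Not at hcon
  have h : ∀ t, t ≤ D + 1 → a t + t ≤ a 0 := by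
    intro t
    induction t with
    | zero => intro _; simp
    | succ t ih =>
      intro ht
      have h1 := ih (by omega)
      have h2 := hm t
      have h3 := hcon t (by omega)
      omega
  have := h (D + 1) le_rfl
  omega

theorem afr (chn : ChnStmt) (pwd : PwdStmt) (adm : AdmStmt) (vmz : VmzStmt) : AfrStmt := by
  intro M
  obtain ⟨j0, hj0⟩ := chn M
  refine ⟨∑ j ∈ Finset.range (j0 + 1), M ^ (2 ^ j), ?_⟩
  intro V _ _ v hE z F hF hFz
  set E : Submodule ℂ (V → ℂ) := Submodule.span ℂ (Set.range v) with hEdef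
  set G : ℕ → Set V := fun t => {x | ∃ k : ℕ, k ≤ t ∧ k • z = x} with hG
  have hGmono : ∀ t, G t ⊆ G (t + 1) := by
    rintro t x ⟨k, hk, rfl⟩
    exact ⟨k, by omega, rfl⟩
  have hVmono : ∀ t, Van (G (t + 1)) ≤ Van (G t) := by
    intro t f hf x hx
    exact hf x (hGmono t hx)
  have hfin : ∀ n, Module.Finite ℂ ↥(E ^ n) := fun n => (pwd V E hE n).2.1
  have hfin2 : ∀ n t, Module.Finite ℂ ↥(E ^ n ⊓ Van (G t)) := by
    intro n t
    haveI := hfin n
    exact Submodule.finiteDimensional_of_le inf_le_left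
  have hle : ∀ n t, Module.finrank ℂ ↥(E ^ n ⊓ Van (G (t + 1)))
      ≤ Module.finrank ℂ ↥(E ^ n ⊓ Van (G t)) := by
    intro n t
    haveI := hfin2 n t
    exact Submodule.finrank_mono (inf_le_inf_left _ (hVmono t))
  obtain ⟨t, htD, hta⟩ := exists_stable
    (fun t => ∑ j ∈ Finset.range (j0 + 1), Module.finrank ℂ ↥(E ^ (2 ^ j) ⊓ Van (G t)))
    (∑ j ∈ Finset.range (j0 + 1), M ^ (2 ^ j))
    (by
      refine Finset.sum_le_sum fun j _ => ?_
      haveI := hfin (2 ^ j)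
      exact (Submodule.finrank_mono inf_le_left).trans (finrank_span_pow_le v (2 ^ j)))
    (fun t => Finset.sum_le_sum fun j _ => hle _ t)
  have hterm := (Finset.sum_eq_sum_iff_of_le (fun j _ => hle (2 ^ j) t)).1 hta
  have heq : ∀ j, j ≤ j0 → E ^ (2 ^ j) ⊓ Van (G (t + 1)) = E ^ (2 ^ j) ⊓ Van (G t) := by
    intro j hj
    haveI := hfin2 (2 ^ j) t
    exact Submodule.eq_of_le_of_finrank_eq (inf_le_inf_left _ (hVmono t))
      (hterm j (Finset.mem_range.2 (by omega)))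
  obtain ⟨j, hj, hst⟩ := hj0 ℂ (V → ℂ) v (VanI (G t))
  have hstab : Stab E (G t) (2 ^ j) := hst
  have hmpos : 2 ^ j ≠ 0 := by positivity
  have hstep : ∀ x ∈ Zr E (G t) (2 ^ j), x + z ∈ Zr E (G t) (2 ^ j) := by
    intro x hx f hf
    obtain ⟨q, hq, hqx⟩ := hE.nbp (x - z)
    have h1 := ((adm V E hE (2 ^ j) f hf.1).1 q hq z)
    have h2 : (fun u => f (u + z) * q (u - z) ^ (2 ^ j)) ∈ Van (G t) := by
      rintro u ⟨k, hk, rfl⟩
      have h3 : f ∈ E ^ (2 ^ j) ⊓ Van (G (t + 1)) := by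
        rw [heq j hj]
        exact hf
      have h4 : f ((k + 1) • z) = 0 := h3.2 _ ⟨k + 1, by omega, rfl⟩
      show f (k • z + z) * q (k • z - z) ^ (2 ^ j) = 0
      rw [← succ_nsmul, h4, zero_mul]
    have h5 := (vmz V E hE (G t) (2 ^ j) hstab _ ⟨h1, h2⟩ x hx).1
    have h6 : f (x + z) * q (x - z) ^ (2 ^ j) = 0 := h5
    rcases mul_eq_zero.1 h6 with h | h
    · exact h
    · exact absurd (pow_eq_zero_iff hmpos |>.1 h) hqx
  have h0 : (0 : V) ∈ Zr E (G t) (2 ^ j) := by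
    intro f hf
    exact hf.2 0 ⟨0, Nat.zero_le _, zero_nsmul z⟩
  have hall : ∀ k : ℕ, k • z ∈ Zr E (G t) (2 ^ j) := by
    intro k
    induction k with
    | zero => rw [zero_nsmul]; exact h0
    | succ k ih => rw [succ_nsmul]; exact hstep _ ih
  intro k
  have h7 : (fun x => F x ^ (2 ^ j)) ∈ E ^ (2 ^ j) ⊓ Van (G t) := by
    refine ⟨(pwd V E hE (2 ^ j)).2.2 F hF, ?_⟩
    rintro x ⟨i, hi, rfl⟩
    show F (i • z) ^ (2 ^ j) = 0
    rw [hFz i (hi.trans htD), zero_pow hmpos]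
  have h8 : F (k • z) ^ (2 ^ j) = 0 := hall k _ h7
  exact (pow_eq_zero_iff hmpos).1 h8

end Pool.Agent.ARC.H90
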